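import Pool.Agent.H852R2.EX.S.REP
import Pool.Agent.H852R2.EX.S.FIXCNT

namespace RC852
open RC14 Finset

namespace EXPOB

lemma card_right {α β : Type*} [Fintype α] [Fintype β] (P : α → β → Prop) (c : ℝ)
    (h : ∀ b, (Nat.card {a // P a b} : ℝ) ≤ c) :
    (Nat.card {p : α × β // P p.1 p.2} : ℝ) ≤ Fintype.card β * c := by
  classical
  have e : {p : α × β // P p.1 p.2} ≃ Σ b : β, {a // P a b} :=
    { toFun := fun p => ⟨p.1.2, ⟨p.1.1, p.2⟩⟩
      invFun := fun s => ⟨(s.2.1, s.1), s.2.2⟩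
      left_inv := fun _ => rfl
      right_inv := fun _ => rfl }
  rw [Nat.card_congr e, Nat.card_sigma]
  push_cast
  calc (∑ b, (Nat.card {a // P a b} : ℝ)) ≤ ∑ _b : β, c := Finset.sum_le_sum fun b _ => h b
    _ = _ := by simp

lemma card_left {α β : Type*} [Fintype α] [Fintype β] (P : α → β → Prop) (c : ℝ)
    (h : ∀ a, (Nat.card {b // P a b} : ℝ) ≤ c) :
    (Nat.card {p : α × β // P p.1 p.2} : ℝ) ≤ Fintype.card α * c := by
  classical
  have e : {p : α × β // P p.1 p.2} ≃ Σ a : α, {b // P a b} :=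
    { toFun := fun p => ⟨p.1.1, ⟨p.1.2, p.2⟩⟩
      invFun := fun s => ⟨(s.1, s.2.1), s.2.2⟩
      left_inv := fun _ => rfl
      right_inv := fun _ => rfl }
  rw [Nat.card_congr e, Nat.card_sigma]
  push_cast
  calc (∑ a, (Nat.card {b // P a b} : ℝ)) ≤ ∑ _a : α, c := Finset.sum_le_sum fun a _ => h a
    _ = _ := by simp

lemma card_or {α : Type*} [Fintype α] (P Q R : α → Prop) (h : ∀ a, P a → Q a ∨ R a) :
    (Nat.card {a // P a} : ℝ) ≤ Nat.card {a // Q a} + Nat.card {a // R a} := by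
  classical
  have : Nat.card {a // P a} ≤ Nat.card {a // Q a} + Nat.card {a // R a} := by
    rw [Nat.card_eq_fintype_card, Nat.card_eq_fintype_card, Nat.card_eq_fintype_card,
      Fintype.card_subtype, Fintype.card_subtype, Fintype.card_subtype]
    refine le_trans (Finset.card_le_card ?_) (Finset.card_union_le _ _)
    intro a ha
    simp only [Finset.mem_filter, Finset.mem_univ, true_and, Finset.mem_union] at ha ⊢
    exact h a ha
  exact_mod_cast this

lemma card_ex {α ι : Type*} [Fintype α] [Fintype ι] (P : ι → α → Prop) (c : ℝ)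
    (h : ∀ i, (Nat.card {a // P i a} : ℝ) ≤ c) :
    (Nat.card {a // ∃ i, P i a} : ℝ) ≤ Fintype.card ι * c := by
  classical
  have h1 : Nat.card {a // ∃ i, P i a} ≤ ∑ i, Nat.card {a // P i a} := by
    simp only [Nat.card_eq_fintype_card, Fintype.card_subtype]
    refine le_trans (Finset.card_le_card ?_) Finset.card_biUnion_le
    intro a ha
    simp only [Finset.mem_filter, Finset.mem_univ, true_and, Finset.mem_biUnion] at ha ⊢
    exact ha
  calc (Nat.card {a // ∃ i, P i a} : ℝ) ≤ ∑ i, (Nat.card {a // P i a} : ℝ) := by exact_mod_cast h1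
    _ ≤ ∑ _i : ι, c := Finset.sum_le_sum fun i _ => h i
    _ = _ := by simp

end EXPOB

/-- few pairs (`b`, block word) with many fixed points -/
theorem EXPOB (n q J F f K' : ℕ) (hn : 1 ≤ n) (hq : 1 ≤ q) (hJ : 1 ≤ J) (hJn : 2 * J ≤ n)
    (hK' : 1 ≤ K') (hf : Odd f) {K : Type*} [Fintype K] [Nonempty K]
    (g : K → Equiv.Perm (Fin n)) (hg : Mix g) (hF : 4 * (f * (3 * J + 1) + K') ≤ F) :
    (Nat.card {p : (Fin q → Alt n) × (Fin J → K × (Fin q × Bool)) //
        F ≤ nfix (bwd g (fun i => (p.1 i : Equiv.Perm (Fin n))) p.2)} : ℝ) ≤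
      (J * n / (K' : ℝ) ^ f + n * (2 ^ J * (2 * J / n : ℝ) ^ (J / 4 + 1))) *
        ((Fintype.card (Alt n) : ℝ) ^ q * (Fintype.card (K × (Fin q × Bool)) : ℝ) ^ J) := by
  classical
  have hKpos : (0 : ℝ) < (K' : ℝ) ^ f := by positivity
  refine le_trans (EXPOB.card_or _
    (fun p : (Fin q → Alt n) × (Fin J → K × (Fin q × Bool)) =>
      F ≤ nfix (bwd g (fun i => (p.1 i : Equiv.Perm (Fin n))) p.2) ∧
      ∀ a, 3 * J ≤ 4 * dst g (fun i => (p.1 i : Equiv.Perm (Fin n))) (List.ofFn p.2) a)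
    (fun p : (Fin q → Alt n) × (Fin J → K × (Fin q × Bool)) =>
      ∃ a, dst g (fun i => (p.1 i : Equiv.Perm (Fin n))) (List.ofFn p.2) a + (J / 4 + 1) ≤ J)
    ?_) ?_
  · intro p hp
    by_cases h : ∀ a, 3 * J ≤ 4 * dst g (fun i => (p.1 i : Equiv.Perm (Fin n))) (List.ofFn p.2) a
    · exact Or.inl ⟨hp, h⟩
    · push Not at h
      obtain ⟨a, ha⟩ := h
      exact Or.inr ⟨a, by omega⟩
  · rw [add_mul]
    refine add_le_add ?_ ?_
    · have h1 := EXPOB.card_right (α := Fin q → Alt n) (β := Fin J → K × (Fin q × Bool))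
        (fun b w => F ≤ nfix (bwd g (fun i => (b i : Equiv.Perm (Fin n))) w) ∧
          ∀ a, 3 * J ≤ 4 * dst g (fun i => (b i : Equiv.Perm (Fin n))) (List.ofFn w) a)
        ((Fintype.card (Alt n) : ℝ) ^ q * (J * n) / (K' : ℝ) ^ f) (fun w => by
          rw [le_div_iff₀ hKpos]
          exact_mod_cast FIXCNT n q J F f K' hJ hf g w hF)
      refine h1.trans (le_of_eq ?_)
      rw [Fintype.card_fun, Fintype.card_fin]
      push_cast
      ring
    · have h2 := EXPOB.card_ex (ι := Fin n) (α := (Fin q → Alt n) × (Fin J → K × (Fin q × Bool)))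
        (fun a p => dst g (fun i => (p.1 i : Equiv.Perm (Fin n))) (List.ofFn p.2) a +
          (J / 4 + 1) ≤ J)
        ((Fintype.card (Alt n) : ℝ) ^ q * (2 ^ J * (2 * J / n : ℝ) ^ (J / 4 + 1) *
          (Fintype.card (K × (Fin q × Bool)) : ℝ) ^ J)) (fun a => by
          have h3 := EXPOB.card_left (α := Fin q → Alt n) (β := Fin J → K × (Fin q × Bool))
            (fun b w => dst g (fun i => (b i : Equiv.Perm (Fin n))) (List.ofFn w) a +
              (J / 4 + 1) ≤ J)
            (2 ^ J * (2 * J / n : ℝ) ^ (J / 4 + 1) *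
              (Fintype.card (K × (Fin q × Bool)) : ℝ) ^ J)
            (fun b => REP n q J (J / 4 + 1) hn hq g hg _ hJn a)
          refine h3.trans (le_of_eq ?_)
          rw [Fintype.card_fun, Fintype.card_fin]
          push_cast
          ring)
      refine h2.trans (le_of_eq ?_)
      rw [Fintype.card_fin]
      ring

end RC852
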